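import Pool.Agent.MP_5c28a4_al.H89.Spec

set_option autoImplicit false

namespace Pool.Agent.MP_5c28a4_al.H26

open Pool.Agent.MP_5c28a4_al.H89

/-- the variety defined by a set of words -/
def var (S : Set F) : Set GrpCat.{0} := {G | ∀ w ∈ S, Sat G w}

/-- the laws of a class of groups -/
def laws (U : Set GrpCat.{0}) : Subgroup F where
  carrier := {w | ∀ G ∈ U, Sat G w}
  one_mem' := fun _ _ f => map_one f
  mul_mem' := fun ha hb G hG f => by rw [map_mul, ha G hG f, hb G hG f, one_mul]
  inv_mem' := fun ha G hG f => by rw [map_inv, ha G hG f, inv_one]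

lemma fi_laws (U : Set GrpCat.{0}) : FI (laws U) := fun σ _ hw G hG f => hw G hG (f.comp σ)

lemma fi_normal {W : Subgroup F} (h : FI W) : W.Normal :=
  ⟨fun w hw g => by simpa using h (MulAut.conj g).toMonoidHom w hw⟩

lemma var_anti {S T : Set F} (h : S ⊆ T) : var T ⊆ var S := fun _ hG w hw => hG w (h hw)

lemma isVar (S : Set F) : IsVariety (var S) := ⟨S, rfl⟩

lemma isVar_inter {V : Set GrpCat.{0}} (hV : IsVariety V) (T : Set F) : IsVariety (V ∩ var T) := by
  obtain ⟨S, rfl⟩ := hV
  refine ⟨S ∪ T, Set.ext fun G => ⟨fun h w hw => hw.elim (h.1 w) (h.2 w), fun h => ?_⟩⟩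
  exact ⟨fun w hw => h w (Or.inl hw), fun w hw => h w (Or.inr hw)⟩

lemma var_laws {U : Set GrpCat.{0}} (hU : IsVariety U) : var (laws U) = U := by
  obtain ⟨S, rfl⟩ := hU
  exact Set.ext fun G => ⟨fun h w hw => h w fun _ hH => hH w hw, fun h w hw => hw G h⟩

lemma laws_le {U : Set GrpCat.{0}} {W : Subgroup F} (h : FI W) (hU : var W ⊆ U) : laws U ≤ W := by
  have := fi_normal h
  intro w hw
  have hq : GrpCat.of (F ⧸ W) ∈ var W := by
    intro v hv f
    let σ : F →* F := FreeGroup.lift fun i => Quotient.out (s := QuotientGroup.leftRel W) (f (.of i))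
    have e : f = (QuotientGroup.mk' W).comp σ := FreeGroup.ext_hom _ _ fun i => by
      simp only [σ, MonoidHom.comp_apply, FreeGroup.lift_apply_of]
      exact (Quotient.out_eq _).symm
    rw [e]
    exact (QuotientGroup.eq_one_iff _).2 (h σ v hv)
  exact (QuotientGroup.eq_one_iff w).1 (hw _ (hU hq) (QuotientGroup.mk' W))

lemma le_of_var {W W' : Subgroup F} (h : FI W') (hv : var W' ⊆ var W) : W ≤ W' :=
  fun w hw => laws_le h hv fun _ hG => hG w hw

lemma var_inj {W W' : Subgroup F} (h : FI W) (h' : FI W') (e : var W = var W') : W = W' :=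
  le_antisymm (le_of_var h' e.ge) (le_of_var h e.le)

theorem easy : EasyStmt := by
  intro V hV
  constructor
  · intro hm
    refine (Set.countable_range fun T : Finset F => V ∩ var T).mono ?_
    rintro U ⟨hU, hUV⟩
    by_contra hc
    have step : ∀ T : {T : Finset F // (T : Set F) ⊆ laws U},
        ∃ T' : {T : Finset F // (T : Set F) ⊆ laws U}, V ∩ var T'.1 ⊂ V ∩ var T.1 := by
      classical
      rintro ⟨T, hT⟩
      have h1 : U ⊆ V ∩ var T := fun G hG => ⟨hUV hG, fun w hw => hT hw G hG⟩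
      have h2 : ¬ V ∩ var T ⊆ var (laws U) := fun h =>
        hc ⟨T, Set.Subset.antisymm (var_laws hU ▸ h) h1⟩
      obtain ⟨G, hG, hG'⟩ := Set.not_subset.1 h2
      simp only [var, Set.mem_ofPred_eq, not_forall] at hG'
      obtain ⟨w, hw, hw'⟩ := hG'
      refine ⟨⟨insert w T, by rw [Finset.coe_insert]; exact Set.insert_subset hw hT⟩,
        Set.inter_subset_inter_right _ (var_anti (by simp)), fun h => hw' ((h hG).2 w (by simp))⟩
    choose f hf using step
    refine hm ⟨fun n => V ∩ var (f^[n] ⟨∅, by simp⟩).1,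
      fun n => ⟨isVar_inter hV _, Set.inter_subset_left⟩, strictAnti_nat_of_succ_lt fun n => ?_⟩
    rw [Function.iterate_succ_apply']
    exact hf _
  · rintro hc ⟨S, hS, h⟩
    let e := hS.natEmbedding S
    let φ : Set ℕ → {U | IsVariety U ∧ U ⊆ V} := fun A =>
      ⟨V ∩ var ((fun i => (e i).1) '' A), isVar_inter hV _, Set.inter_subset_left⟩
    have key : ∀ A B : Set ℕ, φ A = φ B → A ⊆ B := by
      intro A B hAB i hi
      by_contra hB
      refine h _ (e i).2 fun G hG hG' => ?_
      have h1 : G ∈ (φ B).1 := ⟨hG, by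
        rintro _ ⟨j, hj, rfl⟩
        exact hG' _ ⟨(e j).2, fun h' => hB (e.injective (Subtype.ext h') ▸ hj)⟩⟩
      rw [← hAB] at h1
      exact h1.2 _ ⟨i, hi, rfl⟩
    obtain ⟨g, hg⟩ := hc.to_subtype.exists_injective_nat'
    exact Function.cantor_injective (g ∘ φ) (hg.comp fun A B hAB =>
      Set.Subset.antisymm (key A B hAB) (key B A hAB.symm))

/-- the endomorphism that keeps one letter -/
def keep (i : ℕ) (y : F) : F →* F := FreeGroup.lift fun j => if j = i then y else 1

lemma prod_keep {A : Type} [CommGroup A] (f : F →* A) (u : F) :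
    ∃ K, ∀ K', K ≤ K' → f u = ∏ i ∈ Finset.range K', f (keep i (.of i) u) := by
  induction u using FreeGroup.induction_on with
  | C1 => exact ⟨0, fun _ _ => by simp⟩
  | of j =>
    refine ⟨j + 1, fun K' hK => ?_⟩
    rw [Finset.prod_eq_single j]
    · simp [keep]
    · intro i _ hi; simp [keep, hi.symm]
    · intro h; exact absurd (Finset.mem_range.2 hK) h
  | inv_of j ih => exact ih.imp fun K h K' hK => by simp only [map_inv, Finset.prod_inv_distrib, ← h K' hK]
  | mul x y hx hy =>
    obtain ⟨K₁, h₁⟩ := hx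
    obtain ⟨K₂, h₂⟩ := hy
    refine ⟨max K₁ K₂, fun K' hK => ?_⟩
    simp only [map_mul, Finset.prod_mul_distrib, ← h₁ K' (le_of_max_le_left hK),
      ← h₂ K' (le_of_max_le_right hK)]

/-- the exponents of the powers of the first letter in a subgroup -/
def zid (W : Subgroup F) : Submodule ℤ ℤ where
  carrier := {n | x0 ^ n ∈ W}
  zero_mem' := by simp
  add_mem' := fun ha hb => by simpa [zpow_add] using W.mul_mem ha hb
  smul_mem' := fun c n hn => by simpa [mul_comm c, zpow_mul] using W.zpow_mem hn c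

lemma zid_mono {W W' : Subgroup F} (h : W ≤ W') : zid W ≤ zid W' := fun _ hn => h hn

lemma le_of_zid {W W' : Subgroup F} (h : FI W) (h' : FI W') (hc : commutator F ≤ W')
    (hz : zid W ≤ zid W') : W ≤ W' := by
  have := fi_normal h'
  have hm := Subgroup.Normal.quotient_commutative_iff_commutator_le.2 hc
  let : CommGroup (F ⧸ W') := { (inferInstance : Group (F ⧸ W')) with mul_comm := hm.1.1 }
  intro u hu
  obtain ⟨K, hK⟩ := prod_keep (QuotientGroup.mk' W') u
  refine (QuotientGroup.eq_one_iff u).1 ((hK K le_rfl).trans (Finset.prod_eq_one fun i _ => ?_))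
  refine (QuotientGroup.eq_one_iff _).2 ?_
  have h1 : keep i x0 u ∈ Subgroup.zpowers x0 := by
    have : (keep i x0).range ≤ Subgroup.zpowers x0 := by
      refine FreeGroup.range_lift_le ?_
      rintro _ ⟨j, rfl⟩
      by_cases hj : j = i <;> simp [hj]
    exact this ⟨u, rfl⟩
  obtain ⟨n, hn⟩ := Subgroup.mem_zpowers_iff.1 h1
  have h2 : x0 ^ n ∈ W' := hz (show x0 ^ n ∈ W from hn ▸ h _ u hu)
  have e : keep i (.of i) = (keep 0 (.of i)).comp (keep i x0) := FreeGroup.ext_hom _ _ fun j => by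
    by_cases hj : j = i <;> simp [keep, hj, x0]
  rw [e, MonoidHom.comp_apply, ← hn]
  exact h' _ _ h2

lemma countable_top : {W : Subgroup F | FI W ∧ commutator F ≤ W}.Countable := by
  have h1 : Countable (Submodule ℤ ℤ) := Function.Surjective.countable
    (f := fun a : ℤ => Submodule.span ℤ {a}) fun I => ⟨_, Submodule.IsPrincipal.span_singleton_generator I⟩
  exact Set.MapsTo.countable_of_injOn (f := zid) (Set.mapsTo_univ _ _) (fun W hW W' hW' e =>
    le_antisymm (le_of_zid hW.1 hW'.1 hW'.2 e.le) (le_of_zid hW'.1 hW.1 hW.2 e.ge))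
    Set.countable_univ

/-- the consequences of a set of words in a variety -/
def cl (N : Subgroup F) (T : Set F) : Subgroup F := laws (var N ∩ var T)

lemma le_cl (N : Subgroup F) (T : Set F) : N ≤ cl N T := fun w hw _ hG => hG.1 w hw

lemma sub_cl (N : Subgroup F) (T : Set F) : T ⊆ cl N T := fun w hw _ hG => hG.2 w hw

lemma cl_le {N W : Subgroup F} {T : Set F} (h : FI W) (h1 : N ≤ W) (h2 : T ⊆ W) : cl N T ≤ W :=
  laws_le h (Set.subset_inter (var_anti h1) (var_anti h2))

lemma cl_mono (N : Subgroup F) {T T' : Set F} (h : T ⊆ T') : cl N T ≤ cl N T' :=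
  cl_le (fi_laws _) (le_cl _ _) (h.trans (sub_cl _ _))

theorem cex (hL : LatStmt) (hP : PruStmt) : CexStmt := by
  obtain ⟨⟨C, _, _, hC, c, hc⟩, ⟨D, _, _, hD, h3⟩⟩ := hP
  constructor
  · obtain ⟨N, R, _, _, _, hd, ⟨φ⟩⟩ := hL C
    refine ⟨var N, isVar _, ?_, fun hm => hm ⟨fun n => var (φ.symm (c n)).1,
      fun n => ⟨isVar _, var_anti (φ.symm (c n)).2.2.1⟩, fun m n hmn => ?_⟩⟩
    · have h1 : {W : Subgroup F | FI W ∧ N ≤ W ∧ W ≤ R}.Countable :=
        (φ.toEquiv.countable_iff.2 hC : Countable _)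
      refine ((h1.union countable_top).image fun W : Subgroup F => var W).mono ?_
      rintro U ⟨hU, hUN⟩
      have h2 : N ≤ laws U := fun w hw G hG => hUN hG w hw
      refine ⟨laws U, ?_, var_laws hU⟩
      exact (hd _ (fi_laws U) h2).imp (fun h => ⟨fi_laws U, h2, h⟩) fun h => ⟨fi_laws U, h⟩
    · have h1 := φ.symm.strictMono (hc hmn)
      exact ⟨var_anti h1.le, fun h => h1.not_ge (le_of_var (φ.symm (c m)).2.1 h)⟩
  · obtain ⟨N, R, _, hR, hNR, hd, ⟨φ⟩⟩ := hL D
    refine ⟨var N, isVar _, ?_, fun hc => hD ?_⟩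
    · rintro ⟨S, hS, h⟩
      have hi : ∀ s ∈ S, ∀ T, T ⊆ S → s ∉ T → s ∉ cl N T := fun s hs T hT hs' h' =>
        h s hs fun G hG hG' => h' G ⟨hG, fun t ht => hG' t ⟨hT ht, fun e => hs' (e ▸ ht)⟩⟩
      let e := hS.natEmbedding S
      have he : ∀ i j, (e i).1 = (e j).1 → i = j := fun i j h => e.injective (Subtype.ext h)
      by_cases hA : ∃ i, commutator F ≤ cl N {(e i).1}
      · obtain ⟨i, hi'⟩ := hA
        let W : ℕ → Subgroup F := fun k => cl N ((fun j => (e j).1) '' {j | j ≤ i + k})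
        refine not_strictMono_of_wellFoundedGT (fun k => zid (W k))
          (strictMono_nat_of_lt_succ fun k => ?_)
        have h1 : W k ≤ W (k + 1) := cl_mono _ (Set.image_mono fun j (hj : j ≤ _) => by
          show j ≤ _; omega)
        refine lt_of_le_not_ge (zid_mono h1) fun h2 => ?_
        have h3 : W (k + 1) ≤ W k := le_of_zid (fi_laws _) (fi_laws _)
          (hi'.trans (cl_mono _ (Set.singleton_subset_iff.2 ⟨i, by simp, rfl⟩))) h2
        refine hi _ (e (i + (k + 1))).2 _ ?_ ?_ (h3 (sub_cl _ _ ⟨i + (k + 1), by simp, rfl⟩))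
        · rintro _ ⟨j, _, rfl⟩; exact (e j).2
        · rintro ⟨j, hj, hj'⟩
          have := he _ _ hj'
          simp only [Set.mem_ofPred_eq] at hj
          omega
      · push Not at hA
        have hR' : ∀ i, cl N {(e i).1} ≤ R := fun i =>
          (hd _ (fi_laws _) (le_cl _ _)).resolve_right (hA i)
        let A : ℕ → {V : Subgroup F // FI V ∧ N ≤ V ∧ V ≤ R} := fun i =>
          ⟨cl N {(e i).1}, fi_laws _, le_cl _ _, hR' i⟩
        have key : ∀ i j k, i ≠ j → i ≠ k → ¬ φ (A i) ≤ φ (A j) ⊔ φ (A k) := by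
          intro i j k hij hik hle
          let B : {V : Subgroup F // FI V ∧ N ≤ V ∧ V ≤ R} :=
            ⟨cl N {(e j).1, (e k).1}, fi_laws _, le_cl _ _, cl_le hR hNR (Set.pair_subset
              (hR' j (sub_cl _ _ rfl)) (hR' k (sub_cl _ _ rfl)))⟩
          have h1 : A j ≤ B := cl_mono N (by simp)
          have h2 : A k ≤ B := cl_mono N (by simp)
          have h4 : A i ≤ B := φ.le_iff_le.1 (hle.trans (sup_le (φ.monotone h1) (φ.monotone h2)))
          refine hi _ (e i).2 _ (Set.pair_subset (e j).2 (e k).2) ?_ (h4 (sub_cl _ _ rfl))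
          rintro (h | h)
          · exact hij (he _ _ h)
          · exact hik (he _ _ h)
        rcases h3 (φ (A 0)) (φ (A 1)) (φ (A 2)) with h | h | h
        · exact key 0 1 2 (by norm_num) (by norm_num) h
        · exact key 1 0 2 (by norm_num) (by norm_num) h
        · exact key 2 0 1 (by norm_num) (by norm_num) h
    · have := hc.to_subtype
      refine Function.Injective.countable (f := fun A : AddSubgroup D =>
        (⟨var (φ.symm A).1, isVar _, var_anti (φ.symm A).2.2.1⟩ : {U | IsVariety U ∧ U ⊆ var N}))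
        fun A B hAB => φ.symm.injective (Subtype.ext ?_)
      exact var_inj (φ.symm A).2.1 (φ.symm B).2.1 (congrArg Subtype.val hAB)

end Pool.Agent.MP_5c28a4_al.H26
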